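import Pool.Agent.H1.MpRoot

/-!
# CNF satisfiability with few wide positive parts

For all `k` and `c` there is a deterministic machine which decides CNF satisfiability and which
takes at most `82 * (n + m + 1) ^ 4 * (2 - ε) ^ n` steps, with `ε = 1 / (9 * 2 ^ (k + 16 * c + 16))`,
on every formula with `n` variables and `m` clauses in which at most `c * n` different sets with
more than `k` elements occur as the set of the unnegated variables of a clause. Neither the number
of clauses nor the number of negative literals in a clause is bounded.
-/

namespace Pool.Agent.Results.MP_c62aed_lc.FewWideParts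

open Pool.Agent.H1.SP Pool.Agent.H1.MP

/-- A CNF formula with the variables `x_0, …, x_(n-1)`: a list of clauses, each of them a finite set
of literals. The pair `(i, true)` is the literal `x_i`, and `(i, false)` is its negation. -/
abbrev CNF (n : ℕ) := List (Finset (Fin n × Bool))

/-- The assignment `a` satisfies the clause `C`: some literal of `C` is true under `a`. -/
def Satisfies {n : ℕ} (a : Fin n → Bool) (C : Finset (Fin n × Bool)) : Prop :=
  ∃ i : Fin n, (i, a i) ∈ C

instance {n : ℕ} (a : Fin n → Bool) (C : Finset (Fin n × Bool)) : Decidable (Satisfies a C) := by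
  unfold Satisfies; infer_instance

/-- The positive part of a clause: the set of the variables which occur unnegated in it. -/
def posPart {n : ℕ} (C : Finset (Fin n × Bool)) : Finset (Fin n) :=
  Finset.univ.filter fun i => (i, true) ∈ C

/-- The number of different sets with more than `k` elements which are the positive part of some
clause of the formula. -/
def numWide (k : ℕ) {n : ℕ} (φ : CNF n) : ℕ :=
  ((φ.map posPart).toFinset.filter fun S => k < S.card).card

/-- The encoding of a formula, a word of length `n + m * (n + 1)` over an alphabet with five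
letters: `n` blank cells, and then, for each clause `C`, a separator followed by `n` cells, the
`i`-th of which says whether `x_i` occurs in `C` and whether the negation of `x_i` occurs in `C`. -/
def encode {n : ℕ} (φ : CNF n) : List (Option (Bool × Bool)) :=
  List.replicate n (some (false, false)) ++
    φ.flatMap fun C => none :: List.ofFn fun i : Fin n =>
      some (decide ((i, true) ∈ C), decide ((i, false) ∈ C))

/-- The expected output: one bit, telling whether the formula is satisfiable. -/
def answer {n : ℕ} (φ : CNF n) : List Bool :=
  [decide (∃ a : Fin n → Bool, ∀ C ∈ φ, Satisfies a C)]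

/-- The row of a clause. -/
def rowF {n : ℕ} (C : Finset (Fin n × Bool)) : Cl n :=
  fun i => (decide ((i, true) ∈ C), decide ((i, false) ∈ C))

theorem encode_eq {n : ℕ} (φ : CNF n) :
    encode φ = inputOf n ((φ.map rowF).map List.ofFn) := by
  rw [encode, inputOf, List.flatMap_map, List.flatMap_map]
  congr 2
  funext C
  simp only [List.map_ofFn]
  rfl

theorem answer_eq {n : ℕ} (φ : CNF n) :
    answer φ = [decide (∃ a : Fin n → Bool, ∀ A ∈ φ.map rowF, ∃ i,
      ((A i).1 = true ∧ a i = true) ∨ ((A i).2 = true ∧ a i = false))] := by
  rw [answer]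
  congr 1
  rw [decide_eq_decide]
  refine exists_congr fun a => ?_
  rw [List.forall_mem_map]
  refine forall₂_congr fun C _ => exists_congr fun i => ?_
  simp only [rowF, decide_eq_true_eq]
  cases ha : a i <;> simp

theorem pos_rowF {n : ℕ} (C : Finset (Fin n × Bool)) : pos (rowF C) = posPart C := by
  rw [pos, posPart]
  refine Finset.filter_congr fun i _ => ?_
  simp [rowF]

theorem wide_le {n : ℕ} (φ : CNF n) {k κ : ℕ} (h : k ≤ κ) :
    ((((φ.map rowF).map pos).toFinset.filter fun S => κ < S.card).card) ≤ numWide k φ := by
  have : (φ.map rowF).map pos = φ.map posPart := by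
    rw [List.map_map]
    congr 1
    funext C
    exact pos_rowF C
  rw [this, numWide]
  refine Finset.card_le_card ?_
  intro S hS
  rw [Finset.mem_filter] at hS ⊢
  exact ⟨hS.1, lt_of_le_of_lt h hS.2⟩

/-- **Main result.** -/
theorem result :
    ∀ k c : ℕ, ∃ (M : Turing.FinTM2) (ein : M.Γ M.k₀ ≃ Option (Bool × Bool))
      (eout : M.Γ M.k₁ ≃ Bool),
      (∀ j, Finite (M.Γ j)) ∧
      ∀ (n : ℕ) (φ : CNF n), ∃ t : ℕ,
        Nonempty (Turing.TM2OutputsInTime M ((encode φ).map ein.symm)
          (some ((answer φ).map eout.symm)) t) ∧
        (numWide k φ ≤ c * n →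
          (t : ℝ) ≤ 82 * (n + φ.length + 1) ^ 4 * (2 - 1 / (9 * 2 ^ (k + 16 * c + 16))) ^ n) := by
  intro k c
  refine ⟨machine reg0 (prog : P (k + 16 * c + 16) (4 * (c + 1))), Equiv.refl _, Equiv.refl _,
    finite_machine _ _, ?_⟩
  intro n φ
  obtain ⟨t, h1, h2⟩ := run_bound (κ := k + 16 * c + 16) (n := n) c (by omega) (φ.map rowF)
  rw [← encode_eq, ← answer_eq] at h1
  refine ⟨t + 1, ?_, fun hw => ?_⟩
  · have h3 := machine_outputs h1
    have e1 : (encode φ).map (Equiv.refl (Option (Bool × Bool))).symm = encode φ := by
      change (encode φ).map id = _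
      exact List.map_id _
    have e2 : (answer φ).map (Equiv.refl Bool).symm = answer φ := by
      change (answer φ).map id = _
      exact List.map_id _
    have h4 : ∀ (x : List (Option (Bool × Bool))) (y : List Bool), x = encode φ → y = answer φ →
        Nonempty (Turing.TM2OutputsInTime
          (machine reg0 (prog : P (k + 16 * c + 16) (4 * (c + 1)))) x (some y) (t + 1)) := by
      rintro _ _ rfl rfl
      exact h3
    exact h4 _ _ e1 e2
  · have h5 := h2 ((wide_le φ (by omega)).trans hw)
    rw [List.length_map] at h5
    have h6 : (1 / 2 : ℝ) ^ (k + 16 * c + 16) / 9 = 1 / (9 * 2 ^ (k + 16 * c + 16)) := by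
      rw [one_div_pow, div_div, mul_comm]
    rw [h6] at h5
    exact h5

end Pool.Agent.Results.MP_c62aed_lc.FewWideParts
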