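import Pool.Agent.H1.LP.Asm
import Pool.Agent.H58.LP.PAR

/-!
# SETH for linear programs (MP_c62aed_lc)

Linear programming relaxations of CNF-SAT, with branch and bound and adaptive choice of the
inequalities, need `2 ^ ((1 - ε) n)` inequalities.
-/

namespace Pool.Agent.H1.Old.LinearProgramSETH

open Pool.Agent.H1.LP

/-- For all `c` and `ε > 0` there are `K` and `γ > 0` such that for all large `n` and every family
of at most `2 ^ (n ^ c)` LP relaxations of CNF-SAT on cells of the cube, with at most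
`2 ^ (n ^ c)` inequalities each, there is a CNF formula `phi` with `n` variables and `m ≤ n ^ K`
clauses, all with exactly `w ≤ K log n` variables, in which every assignment violates at least
`(1 - ε) m / 2 ^ w` clauses, such that whenever cells of the family partition the cube and, for
every cell `j` of the partition, the inequalities in a set `I j` refute `phi` with margin
`2 ^ (-γ n)`, the sum of `|I j| + 1` is at least `2 ^ ((1 - ε) n)`. -/
theorem result :
    ∀ (c : ℕ) (ε : ℝ), 0 < ε → ∃ K : ℕ, ∃ γ : ℝ, 0 < γ ∧ ∃ n₀ : ℕ, ∀ n : ℕ, n₀ ≤ n →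
      ∀ (M : ℕ) (P : Fin M → Relax n), M ≤ 2 ^ (n ^ c) → (∀ j, (P j).size ≤ 2 ^ (n ^ c)) →
      ∃ (w m : ℕ) (phi : Fin m → Clause n), 1 ≤ m ∧ m ≤ n ^ K ∧ (w : ℝ) ≤ K * Real.logb 2 n ∧
        (∀ i, (phi i).card = w ∧ ((phi i).image Prod.fst).card = w) ∧
        (∀ x, (1 - ε) * (m / 2 ^ w) ≤ (viol phi x : ℝ)) ∧
        ∀ (J : Finset (Fin M)) (I : (j : Fin M) → Finset (Fin (P j).size)),
          (∀ j ∈ J, ∀ j' ∈ J, j ≠ j' → Disjoint (P j).cell (P j').cell) →
          (∀ x, ∃ j ∈ J, x ∈ (P j).cell) →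
          (∀ j ∈ J, (P j).RefutesBy (I j) phi ((2 : ℝ) ^ (-(γ * n)))) →
          (2 : ℝ) ^ ((1 - ε) * n) ≤ ∑ j ∈ J, (((I j).card : ℝ) + 1) :=
  fin core' H58.LP.par

end Pool.Agent.H1.Old.LinearProgramSETH
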