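import Pool.Agent.H1.SatGlueE

/-!
# Counting and deciding CNF satisfiability in time proportional to the number of projections

A projection of a CNF formula is the set of indices of the clauses satisfied by some assignment.
If `P` is the number of projections of a formula with `n` variables and `m` clauses, then a single
deterministic machine with finitely many stacks, states and symbols decides whether the formula is
satisfiable, and counts its satisfying assignments, in at most `1100 * P * (n + m + 1) ^ 3` steps.
-/

namespace Pool.Agent.H1.Old.ProjectionsLinear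

open Pool.Agent.H1.Sat

/-- A CNF formula with the variables `x_0, …, x_(n-1)`: a list of clauses, each of them a finite set
of literals. The pair `(i, true)` is the literal `x_i`, and `(i, false)` is its negation. -/
abbrev CNF (n : ℕ) := List (Finset (Fin n × Bool))

/-- The assignment `a` satisfies the clause `C`: some literal of `C` is true under `a`. -/
def Satisfies {n : ℕ} (a : Fin n → Bool) (C : Finset (Fin n × Bool)) : Prop :=
  ∃ i : Fin n, (i, a i) ∈ C

instance {n : ℕ} (a : Fin n → Bool) (C : Finset (Fin n × Bool)) : Decidable (Satisfies a C) := by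
  unfold Satisfies; infer_instance

/-- The projection of `a`: the set of indices of the clauses satisfied by `a`. -/
def projection {n : ℕ} (φ : CNF n) (a : Fin n → Bool) : Finset (Fin φ.length) :=
  Finset.univ.filter fun j => Satisfies a (φ.get j)

/-- The number of projections of the formula. -/
def numProj {n : ℕ} (φ : CNF n) : ℕ := (Finset.univ.image (projection φ)).card

/-- The number of satisfying assignments. -/
def numSat {n : ℕ} (φ : CNF n) : ℕ :=
  (Finset.univ.filter fun a : Fin n → Bool => ∀ C ∈ φ, Satisfies a C).card

/-- The encoding of a formula, a word of length `n + m * (n + 1)` over an alphabet with five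
letters: `n` blank cells, and then, for each clause `C`, a separator followed by `n` cells, the
`i`-th of which says whether `x_i` occurs in `C` and whether the negation of `x_i` occurs in `C`. -/
def encode {n : ℕ} (φ : CNF n) : List (Option (Bool × Bool)) :=
  List.replicate n (some (false, false)) ++
    φ.flatMap fun C => none :: List.ofFn fun i : Fin n =>
      some (decide ((i, true) ∈ C), decide ((i, false) ∈ C))

/-- The expected output: one bit for satisfiability, and then the number of satisfying assignments
in binary, with `n + 1` bits, least significant bit first. -/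
def answer {n : ℕ} (φ : CNF n) : List Bool :=
  decide (∃ a : Fin n → Bool, ∀ C ∈ φ, Satisfies a C) ::
    (List.range (n + 1)).map (Nat.testBit (numSat φ))

/-- The cube of the assignments which falsify `C`. -/
def rowF {n : ℕ} (C : Finset (Fin n × Bool)) : Cube n :=
  fun i => (decide ((i, true) ∈ C), decide ((i, false) ∈ C))

theorem le_rowF {n : ℕ} (C : Finset (Fin n × Bool)) (a : Fin n → Bool) :
    leF (rowF C) (pt a) ↔ ¬ Satisfies a C := by
  rw [leF_iff, Satisfies, not_exists]
  refine forall_congr' fun i => ?_
  simp only [rowF, pt, decide_eq_true_eq, Bool.not_eq_true']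
  cases ha : a i
  · simp
  · simp

theorem encode_eq {n : ℕ} (φ : CNF n) :
    encode φ = inputOf n ((φ.map rowF).map List.ofFn) := by
  rw [encode, inputOf, List.flatMap_map, List.flatMap_map]
  congr 2
  funext C
  simp only [List.map_ofFn]
  rfl

theorem cnt_numSat {n : ℕ} (φ : CNF n) : cnt (φ.map rowF) = numSat φ := by
  rw [cnt, numSat]
  congr 1
  refine Finset.filter_congr fun a _ => ?_
  constructor
  · intro h C hC
    have := h (rowF C) (List.mem_map.2 ⟨C, hC, rfl⟩)
    rw [le_rowF, not_not] at this
    exact this
  · intro h A hA
    rw [List.mem_map] at hA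
    obtain ⟨C, hC, rfl⟩ := hA
    rw [le_rowF, not_not]
    exact h C hC

theorem numSat_ne_zero {n : ℕ} (φ : CNF n) :
    numSat φ ≠ 0 ↔ ∃ a : Fin n → Bool, ∀ C ∈ φ, Satisfies a C := by
  rw [numSat, Finset.card_ne_zero]
  constructor
  · rintro ⟨a, ha⟩
    exact ⟨a, (Finset.mem_filter.1 ha).2⟩
  · rintro ⟨a, ha⟩
    exact ⟨a, Finset.mem_filter.2 ⟨Finset.mem_univ _, ha⟩⟩

theorem key_of_proj {n : ℕ} (φ : CNF n) {a b : Fin n → Bool}
    (h : projection φ a = projection φ b) : key (φ.map rowF) a = key (φ.map rowF) b := by
  apply hull_congr
  intro A hA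
  rw [List.mem_map] at hA
  obtain ⟨C, hC, rfl⟩ := hA
  rw [le_rowF, le_rowF]
  obtain ⟨j, rfl⟩ := List.mem_iff_get.1 hC
  have h1 : j ∈ projection φ a ↔ j ∈ projection φ b := by rw [h]
  simp only [projection, Finset.mem_filter, Finset.mem_univ, true_and] at h1
  exact not_congr h1

theorem Pn_le {n : ℕ} (φ : CNF n) : Pn (φ.map rowF) ≤ numProj φ := by
  classical
  rw [Pn, numProj]
  have hsub : Finset.univ.image (key (φ.map rowF)) ⊆ (Finset.univ.image (projection φ)).image
      (fun π => if h : ∃ a, projection φ a = π then key (φ.map rowF) h.choose else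
        fun _ => botC) := by
    intro κ hκ
    rw [Finset.mem_image] at hκ
    obtain ⟨a, -, rfl⟩ := hκ
    rw [Finset.mem_image]
    refine ⟨projection φ a, Finset.mem_image.2 ⟨a, Finset.mem_univ _, rfl⟩, ?_⟩
    have hex : ∃ b, projection φ b = projection φ a := ⟨a, rfl⟩
    rw [dif_pos hex]
    exact key_of_proj φ hex.choose_spec
  exact (Finset.card_le_card hsub).trans Finset.card_image_le

theorem cost_bound (n m B : ℕ) (hB : 1 ≤ B) :
    costT n m B + 1 ≤ 356 * B * (n + m + 1) ^ 3 := by
  obtain ⟨b, rfl⟩ : ∃ b, B = b + 1 := ⟨B - 1, by omega⟩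
  simp only [costT, costR, costF, costE, costP]
  ring_nf
  omega

theorem finite_machine : ∀ k, Finite ((machine satProg).Γ k) := by
  intro k
  rcases k with _ | _ | k
  · exact inferInstanceAs (Finite (Option Cell))
  · exact inferInstanceAs (Finite Bool)
  · exact inferInstanceAs (Finite Sym)

/-- **Main result.** -/
theorem result :
    ∃ (M : Turing.FinTM2) (ein : M.Γ M.k₀ ≃ Option (Bool × Bool)) (eout : M.Γ M.k₁ ≃ Bool),
      (∀ k, Finite (M.Γ k)) ∧
      ∀ (n : ℕ) (φ : CNF n),
        Nonempty (Turing.TM2OutputsInTime M ((encode φ).map ein.symm)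
          (some ((answer φ).map eout.symm)) (1100 * numProj φ * (n + φ.length + 1) ^ 3)) := by
  refine ⟨machine satProg, Equiv.refl _, Equiv.refl _, finite_machine, ?_⟩
  intro n φ
  have h := runs_cube (φ.map rowF)
  rw [← encode_eq, cnt_numSat, List.length_map, decide_eq_decide.2 (numSat_ne_zero φ)] at h
  have hP := Pn_le φ
  have hP1 := Pn_pos (φ.map rowF)
  have hc := cost_bound n φ.length (2 * Pn (φ.map rowF) + 1) (by omega)
  have hb : costT n φ.length (2 * Pn (φ.map rowF) + 1) + 1 ≤
      1100 * numProj φ * (n + φ.length + 1) ^ 3 := by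
    refine hc.trans (Nat.mul_le_mul_right _ ?_)
    omega
  obtain ⟨t, ht, hx⟩ := h
  have h2 := machine_outputs (b := 1100 * numProj φ * (n + φ.length + 1) ^ 3 - 1)
    ⟨t, by omega, hx⟩
  rw [Nat.sub_add_cancel (by omega)] at h2
  have e1 : (encode φ).map (Equiv.refl (Option (Bool × Bool))).symm = encode φ := by
    change (encode φ).map id = _
    exact List.map_id _
  have e2 : (answer φ).map (Equiv.refl Bool).symm = answer φ := by
    change (answer φ).map id = _
    exact List.map_id _
  have h3 : ∀ (x : List (Option (Bool × Bool))) (y : List Bool), x = encode φ → y = answer φ →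
      Nonempty (Turing.TM2OutputsInTime (machine satProg) x (some y)
        (1100 * numProj φ * (n + φ.length + 1) ^ 3)) := by
    rintro _ _ rfl rfl
    exact h2
  exact h3 _ _ e1 e2

end Pool.Agent.H1.Old.ProjectionsLinear
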