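import Pool.Agent.H40.TM.Bridge

/-!
# The exact tradeoff between time and memory for CNF satisfiability (MP_c62aed_lc)

Let `m = C₀ n 2 ^ w`, for any `w` between `C log n` and `n / C`.  For almost all CNF formulas `F`
with `n` variables and `m` clauses of width exactly `w`, and for all memory sizes `M = m ^ u` at
once: every verifier of unsatisfiability with `M` bits of memory and an unlimited stack, which gets
from a prover easy facts on `F` (each follows from `M` clauses of `F` and brute force over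
`2 ^ (u n)` assignments), needs at least `2 ^ ((1 - u - η) n)` facts, and a verifier without stack
exists for which `2 ^ ((1 - u + η) n)` clauses are enough.
-/

set_option autoImplicit false

namespace Pool.Agent.Results.MP_c62aed_lc.TimeMemorySETH

open Finset Pool.Agent.H40.TM

theorem result :
    ∀ η : ℝ, 0 < η → η < 1 → ∃ C₀ C : ℕ, 1 ≤ C₀ ∧
      ∀ n w m : ℕ, C ≤ n → n ^ C ≤ 2 ^ w → C * w ≤ n → m = C₀ * n * 2 ^ w →
      ∃ A₁ : ∀ M : ℕ, Machine n (Fin (2 ^ M)) Empty, (∀ M, (A₁ M).Verifier) ∧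
      ∀ (Γ : ℕ → Type) (A : ∀ M : ℕ, Machine n (Fin (2 ^ M)) (Γ M)), (∀ M, (A M).Verifier) →
        ∃ B : Finset (Fin m → Clause n), 2 ^ n * B.card ≤ (clausesOf n w).card ^ m ∧
          ∀ F : Fin m → Clause n, (∀ j, F j ∈ clausesOf n w) → F ∉ B →
            (∀ x, (1 - η) * (m / 2 ^ w) ≤
              ((univ.filter (fun j => x ∈ (F j).Viol)).card : ℝ)) ∧
            ∀ M : ℕ, 1 ≤ M → (M : ℝ) ≤ (m : ℝ) ^ (1 - η) →
              (∀ l, (A M).Accepts l → (∀ D ∈ l, Easy F M (2 ^ (Real.logb m M * n)) D) →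
                (2 : ℝ) ^ ((1 - Real.logb m M - η) * n) ≤ l.length) ∧
              ((m : ℝ) ^ η ≤ M → ∃ l, (A₁ M).Accepts l ∧ (∀ D ∈ l, ∃ j, D = (F j).Viol) ∧
                (l.length : ℝ) ≤ 2 ^ ((1 - Real.logb m M + η) * n)) :=
  main

end Pool.Agent.Results.MP_c62aed_lc.TimeMemorySETH
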